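import Pool.Agent.Helper94.PQ.Stmts

/-!
# PQ, row RSK: rational orthogonal representations of `2`-groups over any field of characteristic
zero, by extension of scalars to the algebraic closure
-/

set_option autoImplicit false

open scoped TensorProduct Classical

namespace PQ54

open PQ

section

variable {k V : Type} [Field k] [AddCommGroup V] [Module k V] [FiniteDimensional k V]

lemma symm_baseChange (K : Type) [Field K] [Algebra k K] (B : V →ₗ[k] V →ₗ[k] k) (hB : Symm B) :
    Symm (LinearMap.BilinForm.baseChange K B : K ⊗[k] V →ₗ[K] K ⊗[k] V →ₗ[K] K) := by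
  constructor
  · intro x y
    induction x using TensorProduct.induction_on with
    | zero => simp
    | add x x' hx hx' => rw [map_add, LinearMap.add_apply, hx, hx', map_add]
    | tmul a v =>
      induction y using TensorProduct.induction_on with
      | zero => simp
      | add y y' hy hy' => rw [map_add, LinearMap.map_add₂, hy, hy']
      | tmul b w =>
        rw [LinearMap.BilinForm.baseChange_tmul, LinearMap.BilinForm.baseChange_tmul, hB.symm v w,
          mul_comm]
  · intro y hy
    have hnd : LinearMap.BilinForm.Nondegenerate B := by
      refine ⟨fun x hx => hB.nondeg x fun z => ?_, fun x hx => hB.nondeg x hx⟩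
      rw [hB.symm]
      exact hx z
    let b := Module.finBasis k V
    let b' := LinearMap.BilinForm.dualBasis B hnd b
    have e : ∀ i (y : K ⊗[k] V), (LinearMap.BilinForm.baseChange K B) (1 ⊗ₜ b' i) y =
        (b.baseChange K).repr y i := by
      intro i y
      induction y using TensorProduct.induction_on with
      | zero => simp
      | add y y' hy hy' => rw [map_add, hy, hy', map_add, Finsupp.add_apply]
      | tmul a w =>
        rw [LinearMap.BilinForm.baseChange_tmul, Module.Basis.baseChange_repr_tmul, one_mul]
        congr 1
        conv_lhs => rw [← b.sum_repr w]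
        rw [map_sum, Finset.sum_eq_single i]
        · rw [map_smul, LinearMap.BilinForm.apply_dualBasis_left, if_pos rfl, smul_eq_mul, mul_one]
        · intro j _ hj
          rw [map_smul, LinearMap.BilinForm.apply_dualBasis_left, if_neg hj, smul_zero]
        · intro h
          exact absurd (Finset.mem_univ i) h
    apply (b.baseChange K).repr.injective
    ext i
    rw [← e i y, hy, map_zero, Finsupp.zero_apply]

end

/-- RSK. -/
theorem st_RSK (h : ST_RS) : ST_RSK := by
  intro S _ _ hS k V _ _ _ _ _ B hB r hr htr
  let K := AlgebraicClosure k
  have : CharZero K := charZero_of_injective_algebraMap (algebraMap k K).injective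
  let r' : S →* (K ⊗[k] V →ₗ[K] K ⊗[k] V) :=
    ((Module.End.baseChangeHom k K V).toRingHom.toMonoidHom).comp r
  have hr'e : ∀ g, r' g = (r g).baseChange K := fun g => rfl
  have ht : ∀ g, LinearMap.trace K (K ⊗[k] V) (r' g) =
      algebraMap k K (LinearMap.trace k V (r g)) := by
    intro g
    rw [hr'e, LinearMap.trace_baseChange]
  obtain ⟨c, hc⟩ := h S hS K (K ⊗[k] V)
    (LinearMap.BilinForm.baseChange K B : K ⊗[k] V →ₗ[K] K ⊗[k] V →ₗ[K] K)
    (symm_baseChange K B hB) r' (by
      intro g x y
      induction x using TensorProduct.induction_on with
      | zero => simp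
      | add x x' hx hx' => rw [map_add, map_add, map_add, LinearMap.add_apply, hx, hx',
          LinearMap.add_apply]
      | tmul a v =>
        induction y using TensorProduct.induction_on with
        | zero => simp
        | add y y' hy hy' => rw [map_add, map_add, map_add, hy, hy']
        | tmul b w =>
          rw [hr'e, LinearMap.baseChange_tmul, LinearMap.baseChange_tmul,
            LinearMap.BilinForm.baseChange_tmul, LinearMap.BilinForm.baseChange_tmul, hr])
    (by
      intro g u hu
      rw [ht, ht, htr g u hu])
  refine ⟨c, fun g => ?_⟩
  apply (algebraMap k K).injective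
  letI : Fintype (Subgroup S) := Fintype.ofFinite _
  have hcg : LinearMap.trace K (K ⊗[k] V) (r' g) =
    ∑ᶠ H : Subgroup S, (c H : K) * (fxn H g : K) := hc g
  rw [← ht, hcg, finsum_eq_sum_of_fintype, finsum_eq_sum_of_fintype, map_sum]
  refine Finset.sum_congr rfl fun H _ => ?_
  rw [map_mul, map_intCast, map_natCast]

end PQ54
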