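import Pool.Agent.Helper94.PQ.Stmts

/-!
# PQ, row QSQ: classes of squares of `ℚ_ℓ`
-/

set_option autoImplicit false

open Polynomial

namespace PQ54

lemma sq_near_one {ℓ : ℕ} [Fact ℓ.Prime] (y : ℚ_[ℓ]) (hy : ‖y - 1‖ < ‖(2 : ℚ_[ℓ])‖ ^ 2) :
    ∃ s : ℚ_[ℓ], s ≠ 0 ∧ y = s ^ 2 := by
  have h2 : ‖(2 : ℚ_[ℓ])‖ ≤ 1 := by
    have := Padic.norm_int_le_one (p := ℓ) 2
    exact_mod_cast this
  have h2' : ‖(2 : ℚ_[ℓ])‖ ^ 2 ≤ 1 := pow_le_one₀ (norm_nonneg _) h2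
  have hy1 : ‖y‖ ≤ 1 := by
    have h := Padic.nonarchimedean (y - 1) 1
    rw [sub_add_cancel] at h
    refine h.trans (max_le (hy.le.trans h2') ?_)
    simp
  let Y : ℤ_[ℓ] := ⟨y, hy1⟩
  have hY : ‖(X ^ 2 - C Y : ℤ_[ℓ][X]).aeval (1 : ℤ_[ℓ])‖ <
      ‖(derivative (X ^ 2 - C Y : ℤ_[ℓ][X])).aeval (1 : ℤ_[ℓ])‖ ^ 2 := by
    have e1 : (X ^ 2 - C Y : ℤ_[ℓ][X]).aeval (1 : ℤ_[ℓ]) = 1 - Y := by simp
    have e2 : (derivative (X ^ 2 - C Y : ℤ_[ℓ][X])).aeval (1 : ℤ_[ℓ]) = 2 := by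
      simp [derivative_pow]
    rw [e1, e2, PadicInt.norm_def, PadicInt.norm_def]
    have e3 : ((1 - Y : ℤ_[ℓ]) : ℚ_[ℓ]) = 1 - y := by
      rw [PadicInt.coe_sub, PadicInt.coe_one]
    have e4 : ((2 : ℤ_[ℓ]) : ℚ_[ℓ]) = 2 := by norm_cast
    rw [e3, e4, norm_sub_rev]
    exact hy
  obtain ⟨z, hz, -⟩ := hensels_lemma hY
  have hz' : z ^ 2 = Y := by
    have : z ^ 2 - Y = 0 := by simpa using hz
    exact sub_eq_zero.1 this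
  have hz2 : (z : ℚ_[ℓ]) ^ 2 = y := by
    have := congrArg (fun t : ℤ_[ℓ] => (t : ℚ_[ℓ])) hz'
    simpa [Y] using this
  refine ⟨z, ?_, hz2.symm⟩
  intro h0
  rw [h0] at hz2
  have hy0 : y = 0 := by rw [← hz2]; simp
  rw [hy0, zero_sub, norm_neg, norm_one] at hy
  exact absurd hy (not_lt.2 h2')

/-- QSQ. -/
theorem st_QSQ : PQ.ST_QSQ := by
  intro ℓ _ x hx
  have hx0 : 0 < ‖x‖ := norm_pos_iff.2 hx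
  have h20 : 0 < ‖(2 : ℚ_[ℓ])‖ ^ 2 := pow_pos (norm_pos_iff.2 two_ne_zero) 2
  have h2 : ‖(2 : ℚ_[ℓ])‖ ≤ 1 := by
    have := Padic.norm_int_le_one (p := ℓ) 2
    exact_mod_cast this
  have h2' : ‖(2 : ℚ_[ℓ])‖ ^ 2 ≤ 1 := pow_le_one₀ (norm_nonneg _) h2
  obtain ⟨c, hc⟩ := Padic.rat_dense ℓ x (mul_pos hx0 h20)
  have hcx : ‖x - (c : ℚ_[ℓ])‖ < ‖x‖ :=
    hc.trans_le (mul_le_of_le_one_right hx0.le h2')
  have hcn : ‖(c : ℚ_[ℓ])‖ = ‖x‖ :=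
    (Padic.norm_eq_of_norm_sub_lt_left (p := ℓ) (z1 := x) (z2 := (c : ℚ_[ℓ])) hcx).symm
  have hc0 : (c : ℚ_[ℓ]) ≠ 0 := by
    intro h
    rw [h, norm_zero] at hcn
    exact hx0.ne hcn
  have hc0' : c ≠ 0 := by
    rintro rfl
    simp at hc0
  obtain ⟨s, hs, hs2⟩ := sq_near_one (x / (c : ℚ_[ℓ])) (by
    have e : x / (c : ℚ_[ℓ]) - 1 = (x - (c : ℚ_[ℓ])) / (c : ℚ_[ℓ]) := by
      rw [sub_div, div_self hc0]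
    rw [e, norm_div, hcn, div_lt_iff₀ hx0, mul_comm]
    exact hc)
  refine ⟨c, s, hc0', hs, ?_⟩
  rw [← hs2, mul_div_cancel₀ _ hc0]

end PQ54
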