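import Pool.Agent.Helper94.PQ.Stmts

/-!
# PQ, row SQ: the conductor is a square
-/

set_option autoImplicit false
set_option linter.deprecated false

open NumberField
open IsDedekindDomain (HeightOneSpectrum)
open scoped Classical

namespace PQ54

open PQ BKA

lemma isSquare_of_factorization {n : ℕ} (hn : n ≠ 0)
    (h : ∀ p : ℕ, p.Prime → Even (n.factorization p)) : IsSquare n := by
  refine ⟨n.factorization.prod fun p k => p ^ (k / 2), ?_⟩
  conv_lhs => rw [← Nat.prod_factorization_pow_eq_self hn]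
  rw [← Finsupp.prod_mul]
  refine Finsupp.prod_congr fun p hp => ?_
  have hpp : p.Prime := by
    rw [Nat.support_factorization] at hp
    exact Nat.prime_of_mem_primeFactors hp
  rw [← pow_add]
  congr 1
  obtain ⟨k, hk⟩ := h p hpp
  omega

/-- the place of `ℚ` -/
noncomputable def plZ (ℓ : ℕ) (hℓ : ℓ.Prime) : HeightOneSpectrum ℤ where
  asIdeal := Ideal.span {(ℓ : ℤ)}
  isPrime := (Ideal.span_singleton_prime (by exact_mod_cast hℓ.ne_zero)).2
    (Nat.prime_iff_prime_int.1 hℓ)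
  ne_bot := by
    rw [Ne, Ideal.span_singleton_eq_bot]
    exact_mod_cast hℓ.ne_zero

variable {F : Type} [Field F] [NumberField F]

lemma liesOver (v : Pl F) (ℓ : ℕ) (hℓ : ℓ.Prime) (h : (ℓ : 𝓞 F) ∈ v.asIdeal) :
    v.asIdeal.LiesOver (Ideal.span {(ℓ : ℤ)}) := by
  haveI := v.isPrime
  constructor
  have hmax : (Ideal.span {(ℓ : ℤ)}).IsMaximal := (plZ ℓ hℓ).isMaximal
  have hle : Ideal.span {(ℓ : ℤ)} ≤ v.asIdeal.under ℤ := by
    rw [Ideal.span_singleton_le_iff_mem, Ideal.mem_under]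
    simpa using h
  exact hmax.eq_of_le (Ideal.IsPrime.ne_top inferInstance) hle

lemma q_eq (v : Pl F) (ℓ : ℕ) (hℓ : ℓ.Prime) (h : (ℓ : 𝓞 F) ∈ v.asIdeal) :
    q v = ℓ ^ ((Ideal.span {(ℓ : ℤ)}).inertiaDeg' v.asIdeal) := by
  haveI := liesOver v ℓ hℓ h
  exact Ideal.absNorm_eq_pow_inertiaDeg' v.asIdeal hℓ

lemma q_ne_zero (v : Pl F) : q v ≠ 0 := by
  unfold q
  rw [Ne, Ideal.absNorm_eq_zero_iff]
  exact v.ne_bot

lemma exists_prime (v : Pl F) : ∃ ℓ : ℕ, ℓ.Prime ∧ (ℓ : 𝓞 F) ∈ v.asIdeal := by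
  have h0 : (Ideal.absNorm v.asIdeal : 𝓞 F) ∈ v.asIdeal := Ideal.absNorm_mem v.asIdeal
  have h1 : Ideal.absNorm v.asIdeal ≠ 0 := q_ne_zero v
  have hne : v.asIdeal ≠ ⊤ := v.isPrime.ne_top
  -- the product of the prime factors
  haveI := v.isPrime
  have key : ∀ n : ℕ, n ≠ 0 → (n : 𝓞 F) ∈ v.asIdeal → ∃ ℓ : ℕ, ℓ.Prime ∧ (ℓ : 𝓞 F) ∈ v.asIdeal := by
    intro n
    induction n using Nat.recOnMul with
    | zero => intro h; exact absurd rfl h
    | one => intro _ h; exact absurd (v.asIdeal.eq_top_of_isUnit_mem h (by simp)) hne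
    | prime p hp => intro _ h; exact ⟨p, hp, h⟩
    | mul a b iha ihb =>
      intro hab h
      rw [Nat.cast_mul] at h
      rcases v.isPrime.mem_or_mem h with h | h
      · exact iha (by rintro rfl; simp at hab) h
      · exact ihb (by rintro rfl; simp at hab) h
  exact key _ h1 h0

lemma q_factorization (v : Pl F) (ℓ : ℕ) (hℓ : ℓ.Prime) :
    (q v).factorization ℓ = if (ℓ : 𝓞 F) ∈ v.asIdeal then
      (Ideal.span {(ℓ : ℤ)}).inertiaDeg' v.asIdeal else 0 := by
  by_cases h : (ℓ : 𝓞 F) ∈ v.asIdeal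
  · rw [if_pos h, q_eq v ℓ hℓ h, Nat.factorization_pow]
    simp [hℓ.factorization]
  · rw [if_neg h]
    obtain ⟨p, hp, hpv⟩ := exists_prime v
    have hne : p ≠ ℓ := by rintro rfl; exact h hpv
    rw [q_eq v p hp hpv, Nat.factorization_pow]
    simp [hp.factorization, hne]

lemma od_rat (v : Pl F) (ℓ : ℕ) (hℓ : ℓ.Prime) (h : (ℓ : 𝓞 F) ∈ v.asIdeal) (c : ℚ) :
    od v (c : F) = ((Ideal.span {(ℓ : ℤ)}).ramificationIdx' v.asIdeal : ℤ) *
      (-WithZero.log ((plZ ℓ hℓ).valuation ℚ c)) := by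
  haveI := liesOver v ℓ hℓ h
  haveI : v.asIdeal.LiesOver (plZ ℓ hℓ).asIdeal := this
  have h1 := HeightOneSpectrum.valuation_liesOver (A := ℤ) (K := ℚ) (B := 𝓞 F) F (plZ ℓ hℓ) v c
  unfold od
  have h2 : (algebraMap ℚ F) c = (c : F) := by simp
  rw [← h2, ← h1, WithZero.log_pow]
  simp [plZ]

/-- SQ. -/
theorem st_SQ : ST_SQ := by
  intro F _ _ hF a ha
  have hne : (a.prod fun v j => q v ^ j) ≠ 0 := by
    rw [Finsupp.prod, Finset.prod_ne_zero_iff]
    intro v _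
    exact pow_ne_zero _ (q_ne_zero v)
  refine isSquare_of_factorization hne fun ℓ hℓ => ?_
  obtain ⟨c, hc, hev⟩ := ha ℓ hℓ
  set p : Ideal ℤ := Ideal.span {(ℓ : ℤ)} with hp
  haveI hmax : p.IsMaximal := (plZ ℓ hℓ).isMaximal
  have hp0 : p ≠ ⊥ := (plZ ℓ hℓ).ne_bot
  have hsum := Ideal.sum_ramification_inertia (R := ℤ) (𝓞 F) ℚ F hp0
  -- the function on ideals
  let A : Ideal (𝓞 F) → ℕ := fun P => if h : P.IsPrime ∧ P ≠ ⊥ then a ⟨P, h.1, h.2⟩ else 0
  have hA : ∀ v : Pl F, A v.asIdeal = a v := by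
    intro v
    have h : v.asIdeal.IsPrime ∧ v.asIdeal ≠ ⊥ := ⟨v.isPrime, v.ne_bot⟩
    simp only [A]
    rw [dif_pos h]
  have hmemP : ∀ P : Ideal (𝓞 F), P ∈ IsDedekindDomain.primesOverFinset p (𝓞 F) ↔
      ∃ v : Pl F, v.asIdeal = P ∧ (ℓ : 𝓞 F) ∈ v.asIdeal := by
    intro P
    rw [IsDedekindDomain.mem_primesOverFinset_iff hp0]
    constructor
    · rintro ⟨h1, h2⟩
      have hl : (ℓ : 𝓞 F) ∈ P := by
        have h3 := h2.over
        have h4 : (ℓ : ℤ) ∈ P.under ℤ := by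
          rw [← h3, hp]
          exact Ideal.mem_span_singleton_self _
        rw [Ideal.mem_under] at h4
        simpa using h4
      refine ⟨⟨P, h1, ?_⟩, rfl, hl⟩
      rintro rfl
      rw [Ideal.mem_bot] at hl
      exact hℓ.ne_zero (by exact_mod_cast hl)
    · rintro ⟨v, rfl, h⟩
      exact ⟨v.isPrime, liesOver v ℓ hℓ h⟩
  have h1 : (a.prod fun v j => q v ^ j).factorization ℓ =
      ∑ P ∈ IsDedekindDomain.primesOverFinset p (𝓞 F), A P * p.inertiaDeg' P := by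
    rw [Finsupp.prod, Nat.factorization_prod_apply (fun v _ => pow_ne_zero _ (q_ne_zero v))]
    have h2 : ∀ v ∈ a.support, (q v ^ a v).factorization ℓ =
        if (ℓ : 𝓞 F) ∈ v.asIdeal then A v.asIdeal * p.inertiaDeg' v.asIdeal else 0 := by
      intro v _
      rw [Nat.factorization_pow, Finsupp.smul_apply, q_factorization v ℓ hℓ, hA, smul_eq_mul]
      split_ifs <;> simp [hp]
    rw [Finset.sum_congr rfl h2, ← Finset.sum_filter]
    have hinj : Set.InjOn (fun v : Pl F => v.asIdeal)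
        (a.support.filter fun v : Pl F => (ℓ : 𝓞 F) ∈ v.asIdeal) := by
      intro v _ w _ h
      exact HeightOneSpectrum.ext h
    rw [← Finset.sum_image (f := fun P => A P * p.inertiaDeg' P) hinj]
    refine Finset.sum_subset ?_ ?_
    · intro P hP
      rw [Finset.mem_image] at hP
      obtain ⟨v, hv, rfl⟩ := hP
      rw [Finset.mem_filter] at hv
      exact (hmemP _).2 ⟨v, rfl, hv.2⟩
    · intro P hP hP'
      obtain ⟨v, rfl, hv⟩ := (hmemP P).1 hP
      have : a v = 0 := by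
        by_contra h0
        exact hP' (Finset.mem_image.2 ⟨v, Finset.mem_filter.2 ⟨Finsupp.mem_support_iff.2 h0, hv⟩,
          rfl⟩)
      rw [hA, this, zero_mul]
  rw [h1]
  have h3 : Even ((∑ P ∈ IsDedekindDomain.primesOverFinset p (𝓞 F), A P * p.inertiaDeg' P : ℕ) : ℤ) := by
    set k : ℤ := -WithZero.log ((plZ ℓ hℓ).valuation ℚ c) with hk
    have h4 : ((∑ P ∈ IsDedekindDomain.primesOverFinset p (𝓞 F), A P * p.inertiaDeg' P : ℕ) : ℤ) =
        ∑ P ∈ IsDedekindDomain.primesOverFinset p (𝓞 F), ((A P : ℤ) + p.ramificationIdx' P * k) *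
          p.inertiaDeg' P - k * Module.finrank ℚ F := by
      rw [← hsum]
      push_cast
      rw [Finset.mul_sum, ← Finset.sum_sub_distrib]
      refine Finset.sum_congr rfl fun P _ => ?_
      ring
    rw [h4]
    refine Even.sub (Finset.even_sum _ fun P hP => ?_) (Even.mul_left (by exact_mod_cast hF) _)
    obtain ⟨v, rfl, hv⟩ := (hmemP P).1 hP
    have h5 := hev v hv
    rw [od_rat v ℓ hℓ hv c] at h5
    rw [hA]
    exact h5.mul_right _
  exact_mod_cast h3

end PQ54
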